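import Pool.Agent.H23.CG.Main

/-!
# MP_aa86c4_co, Conway's 99-graph problem: few 3×3 grids

A 99-graph has 7 triangles through each vertex `v`; two of them span an induced `K₃ □ K₃` (a grid) or not, and every
grid through `v` arises from one pair of triangles.  So 21 grids through `v` and 231 = 99·21/9 grids in all are
conceivable (in the two known graphs with the conditions (i), (ii), on 9 and 243 vertices, all pairs of triangles
through a vertex span a grid).  We prove that at most 18 of the 21 pairs of triangles through a vertex span a grid.

Proof (see `Pool.Agent.H23.CG`).  If the seven triangles through `v` are divided into three and four such that all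
9 pairs of triangles inside a part span grids, the adjacencies between the blocks of the non-neighbours of `v` (four
vertices for each pair of triangles) inside the two parts are bijections of four-element sets, hence signed
permutation matrices; the numbers of common neighbours give identities between them which, considered modulo 4,
leave only 96 patterns for the relation that such a bijection commutes with the antipodal maps.  If at least 19
pairs span grids, all splits which avoid the at most two exceptional pairs have such a pattern, for one relation;
a finite search shows that this is impossible.
-/
set_option autoImplicit false

theorem Pool.Agent.Results.MP_aa86c4_co.FewGrids.result (G : SimpleGraph (Fin 99)) (h1 : G.LocallyLinear)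
    (h2 : Nfc61c3d6.NonEdgesAreDiagonals G) :
    (∀ v : Fin 99, {S : Set (Fin 99) | v ∈ S ∧
      Nonempty (G.induce S ≃g ((⊤ : SimpleGraph (Fin 3)) □ (⊤ : SimpleGraph (Fin 3))))}.ncard ≤ 18) ∧
    {S : Set (Fin 99) |
      Nonempty (G.induce S ≃g ((⊤ : SimpleGraph (Fin 3)) □ (⊤ : SimpleGraph (Fin 3))))}.ncard ≤ 198 :=
  Pool.Agent.H23.CG.main G h1 h2
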